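import Pool.Agent.Helper74.BS.St2
import Pool.Agent.Helper83.DC.Tools

set_option autoImplicit false

/-! Project BS (helper74), MP_26f0da_lc: module AU2 (helper10). -/

namespace Pool.Agent.Helper10.BS

open Pool.Agent.Helper73.DC Pool.Agent.Helper74.BS
open Pool.Agent.Helper83.DC
open Finset
open scoped Classical

variable {α : Type} [Fintype α]

theorem kE2 (h5 : StL5) (c : ℕ) : E2 (α := α) (fun w _ => KK c w.length) := by
  have hl : E2 (α := α) (fun w _ => Nat.log 2 w.length) :=
    (h5 (fun w _ => w.length) (fun w _ => w.length) (fun w _ => w.length) (fun w _ => w.length) (fun w _ => w.length)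
      E2.len E2.len E2.len E2.len E2.len).2.2.2
  exact (hl.powc c).add (E2.const 2)

theorem bE2 (d : ℕ) : E2 (α := α) (fun w _ => (w.length + 2) ^ d) := (E2.len.add (E2.const 2)).powc d

theorem pwEq {B b m r : ℕ} (hb : 1 ≤ b) (h : b ^ m ≤ B) (hr : r ≤ m) : pw B b r = b ^ r := by
  have h1 : b ^ r ≤ b ^ m := Nat.pow_le_pow_right hb hr
  unfold pw
  omega

theorem vE2 (h5 : StL5) (c d : ℕ) (Mf : ℕ → ℕ) (hM : E2 (α := α) (fun w _ => Mf w.length))
    (hd : ∀ n, (KK c n + 1) ^ Mf n ≤ (n + 2) ^ d) : E2 (α := α) (fun w _ => VVf c Mf w.length) := by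
  have h := tPw h5 (bE2 (α := α) d) ((kE2 h5 c).add (E2.const 1)) hM
  have e : (fun (w : List α) (_ : ℕ → ℕ) => pw ((w.length + 2) ^ d) (KK c w.length + 1) (Mf w.length)) =
      (fun w _ => VVf c Mf w.length) := by
    funext w _
    exact pwEq (by omega) (hd w.length) le_rfl
  rw [e] at h
  exact h

/-- Sums of digits with powers. -/
theorem vcE2 (h3 : StL3) (h5 : StL5) (c d : ℕ) (Mf : ℕ → ℕ) (hM : E2 (α := α) (fun w _ => Mf w.length))
    (hd : ∀ n, (KK c n + 1) ^ Mf n ≤ (n + 2) ^ d) (T : VF α) (hT : E2 T) :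
    E2 (fun w v => vcod (KK c w.length + 1) (Mf w.length) (fun r => T w (scons r v))) := by
  have hp : E2 (α := α) (fun w u => T w u * pw ((w.length + 2) ^ d) (KK c w.length + 1) (u 0)) :=
    hT.mul (tPw h5 (bE2 d) ((kE2 h5 c).add (E2.const 1)) (E2.get 0))
  have h := tSum h3 hp hM
  have e : (fun (w : List α) (v : ℕ → ℕ) => ∑ i ∈ range (Mf w.length), (fun w u => T w u *
      pw ((w.length + 2) ^ d) (KK c w.length + 1) (u 0)) w (scons i v)) =
      (fun w v => vcod (KK c w.length + 1) (Mf w.length) (fun r => T w (scons r v))) := by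
    funext w v
    unfold vcod
    refine Finset.sum_congr rfl (fun r hr => ?_)
    have hr' := Finset.mem_range.1 hr
    show T w (scons r v) * pw ((w.length + 2) ^ d) (KK c w.length + 1) r = _
    rw [pwEq (by omega) (hd w.length) hr'.le]
  rw [e] at h
  exact h

theorem addvE2 (h1 : StL1) (h3 : StL3) (h5 : StL5) (c d : ℕ) (Mf : ℕ → ℕ) (hM : E2 (α := α) (fun w _ => Mf w.length))
    (hd : ∀ n, (KK c n + 1) ^ Mf n ≤ (n + 2) ^ d) {A B : VF α} (hA : E2 A) (hB : E2 B) :
    E2 (fun w v => addv (KK c w.length) (Mf w.length) (A w v) (B w v)) := by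
  have hk := kE2 (α := α) h5 c
  have hT : E2 (α := α) (fun w u => min (KK c w.length) (dg (KK c w.length + 1) (A w (fun i => u (i + 1))) (u 0) +
      dg (KK c w.length + 1) (B w (fun i => u (i + 1))) (u 0))) :=
    (h1 _ _ hk ((tDg h5 (hk.add (E2.const 1)) hA.sh1 (E2.get 0)).add
      (tDg h5 (hk.add (E2.const 1)) hB.sh1 (E2.get 0)))).2.1
  exact vcE2 h3 h5 c d Mf hM hd _ hT

theorem ttE2 (h1 : StL1) (h2 : StL2) (h5 : StL5) (c : ℕ) {A R : VF α} (hA : E2 A) (hR : E2 R) :
    E2 (fun w v => tt (KK c w.length) (A w v) (R w v)) := by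
  have hk := kE2 (α := α) h5 c
  have hF : E2 (α := α) (fun w v => max 1 (dg (KK c w.length + 1) (A w v) 0)) :=
    (h1 _ _ (E2.const 1) (tDg h5 (hk.add (E2.const 1)) hA (E2.const 0))).2.2
  have hG : E2 (α := α) (fun w u => max (if KK c w.length ≤ u 1 then 1 else 0)
      (dg (KK c w.length + 1) (A w (fun i => u (i + 2))) (u 0 + 1))) :=
    (h1 _ _ (tIte h2 (tLe h2 hk (E2.get 1)) (E2.const 1) (E2.const 0))
      (tDg h5 (hk.add (E2.const 1)) hA.sh2 ((E2.get 0).add (E2.const 1)))).2.2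
  have key : ∀ w v y, prec (fun w v => max 1 (dg (KK c w.length + 1) (A w v) 0))
      (fun w u => max (if KK c w.length ≤ u 1 then 1 else 0)
      (dg (KK c w.length + 1) (A w (fun i => u (i + 2))) (u 0 + 1))) w v y = tt (KK c w.length) (A w v) y := by
    intro w v y
    induction y with
    | zero => rfl
    | succ y ih =>
      simp only [prec]
      rw [ih]
      simp only [scons, tt]
      rfl
  have hb : ∀ (w : List α) (v : ℕ → ℕ) (y : ℕ), tt (KK c w.length) (A w v) y ≤ KK c w.length + 1 := by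
    intro w v y
    have hdg : ∀ x r, dg (KK c w.length + 1) x r < KK c w.length + 1 := fun x r => Nat.mod_lt _ (by omega)
    cases y with
    | zero =>
      simp only [tt]
      have := hdg (A w v) 0
      omega
    | succ y =>
      simp only [tt]
      have := hdg (A w v) (y + 1)
      split_ifs <;> omega
  have h := E2.brec hF hG hR (hk.add (E2.const 1)) (by
    intro w v y _
    rw [key]
    exact hb w v y)
  have e : (fun (w : List α) (v : ℕ → ℕ) => prec (fun w v => max 1 (dg (KK c w.length + 1) (A w v) 0))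
      (fun w u => max (if KK c w.length ≤ u 1 then 1 else 0)
      (dg (KK c w.length + 1) (A w (fun i => u (i + 2))) (u 0 + 1))) w v (R w v)) =
      (fun w v => tt (KK c w.length) (A w v) (R w v)) := by
    funext w v
    exact key w v _
  rw [e] at h
  exact h

theorem cmbE2 (h1 : StL1) (h2 : StL2) (h3 : StL3) (h5 : StL5) (c d : ℕ) (Mf : ℕ → ℕ)
    (hM : E2 (α := α) (fun w _ => Mf w.length))
    (hd : ∀ n, (KK c n + 1) ^ Mf n ≤ (n + 2) ^ d) {A : VF α} (hA : E2 A) :
    E2 (fun w v => cmb (KK c w.length) (Mf w.length) (A w v)) :=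
  vcE2 h3 h5 c d Mf hM hd _ (ttE2 h1 h2 h5 c hA.sh1 (E2.get 0))

theorem le4 (n e d X V : ℕ) (hX : X = (n + 2) ^ e) (hV : V ≤ (n + 2) ^ d) : 4 * (X * V) ≤ (n + 2) ^ (e + d + 2) := by
  have h4 : 4 ≤ (n + 2) ^ 2 := by
    calc 4 = 2 ^ 2 := by norm_num
      _ ≤ (n + 2) ^ 2 := Nat.pow_le_pow_left (by omega) 2
  calc 4 * (X * V) ≤ (n + 2) ^ 2 * ((n + 2) ^ e * (n + 2) ^ d) := by
        rw [hX]
        exact Nat.mul_le_mul h4 (Nat.mul_le_mul_left _ hV)
    _ = (n + 2) ^ (e + d + 2) := by rw [pow_add, pow_add]; ring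

theorem hAU2 (hL1 : StL1) (hL2 : StL2) (hL3 : StL3) (hL4 : StL4) (hL5 : StL5) (hVE : StVE) :
    Pool.Agent.Helper74.BS.StAU2 := by
  intro α _ cl lf tn rs c0 e c d Mf If hcl hrs hlf htn hc0 hM hI hd bcl brs blf bc0
  have hk := kE2 (α := α) hL5 c
  have hV := vE2 (α := α) hL5 c d Mf hM hd
  have hX := bE2 (α := α) e
  have hQ : E2 (α := α) (fun w v => v 0 / VVf c Mf w.length) := tDiv hL4 (E2.get 0) hV
  have hR : E2 (α := α) (fun w v => v 0 % VVf c Mf w.length) := tMod hL4 (E2.get 0) hV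
  have hQ1 : E2 (α := α) (fun w v => v 1 / VVf c Mf w.length) := tDiv hL4 (E2.get 1) hV
  have hR1 : E2 (α := α) (fun w v => v 1 % VVf c Mf w.length) := tMod hL4 (E2.get 1) hV
  have hlfQ : E2 (α := α) (fun w v => lf w (v 0 / VVf c Mf w.length)) := hlf.sub1 hQ
  have hclQ : E2 (α := α) (fun w v => cl w (v 0 / VVf c Mf w.length)) := hcl.sub1 hQ
  have htnQ : E2 (α := α) (fun w v => tn w (v 0 / VVf c Mf w.length)) := htn.sub1 hQ
  have hrs0 : E2 (α := α) (fun w v => rs w (v 0 / VVf c Mf w.length) 0) := hrs.sub2 hQ (E2.const 0)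
  have hrs1 : E2 (α := α) (fun w v => rs w (v 0 / VVf c Mf w.length) (v 1 / VVf c Mf w.length)) := hrs.sub2 hQ hQ1
  have hVp : ∀ n, 0 < VVf c Mf n := fun n => Nat.pow_pos (by unfold KK; omega)
  have hmod : ∀ n y, y % VVf c Mf n < VVf c Mf n := fun n y => Nat.mod_lt _ (hVp n)
  have hVd : ∀ n, VVf c Mf n ≤ (n + 2) ^ d := hd
  have hXp : ∀ n : ℕ, 0 < (n + 2) ^ e := fun n => Nat.pow_pos (by omega)
  refine ⟨?_, ?_, ?_, ?_, ?_, e + d + 2, ?_, ?_, ?_, ?_⟩
  · refine tIte hL2 (tLe hL2 hX hQ) ?_ (tIte hL2 (tEq hL2 hlfQ (E2.const 0)) (E2.const 0) ?_)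
    · exact ((((hL1 _ _ (tSub hL1 hQ hX) hX).2.1).mul hV).add hR).add (E2.const 1)
    · exact (((tSub hL1 hlfQ (E2.const 1)).mul hV).add hR).add (E2.const 1)
  · exact tIte hL2 (tEq hL2 htnQ (E2.const 0)) ((hclQ.mul hV).add hR) (hrs0.mul hV)
  · refine tIte hL2 (tEq hL2 htnQ (E2.const 0)) ((hrs1.mul hV).add hR1) ?_
    exact ((hX.add ((hL1 _ _ hQ1 hX).2.1)).mul hV).add
      (addvE2 hL1 hL3 hL5 c d Mf hM hd hR (cmbE2 hL1 hL2 hL3 hL5 c d Mf hM hd hR1))
  · exact hc0.mul hV
  · exact tAnd hL2 (tEq hL2 hQ (E2.const 0)) (tEq hL2 (tDg hL5 (hk.add (E2.const 1)) hR hI) (E2.const 0))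
  · intro w x
    refine lt_of_lt_of_le ?_ (le4 w.length e d _ _ rfl (hVd w.length))
    have h1 := hVp w.length
    have h2 := hmod w.length x
    have h3 := hXp w.length
    unfold lfA
    split_ifs with g1 g2
    · have h5 : min (x / VVf c Mf w.length - (w.length + 2) ^ e) ((w.length + 2) ^ e) * VVf c Mf w.length ≤
        (w.length + 2) ^ e * VVf c Mf w.length := Nat.mul_le_mul_right _ (min_le_right _ _)
      have h6 : VVf c Mf w.length ≤ (w.length + 2) ^ e * VVf c Mf w.length := Nat.le_mul_of_pos_left _ h3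
      omega
    · have h6 : VVf c Mf w.length ≤ (w.length + 2) ^ e * VVf c Mf w.length := Nat.le_mul_of_pos_left _ h3
      omega
    · have h5 : (lf w (x / VVf c Mf w.length) - 1) * VVf c Mf w.length ≤
        (w.length + 2) ^ e * VVf c Mf w.length :=
          Nat.mul_le_mul_right _ (by have := blf w (x / VVf c Mf w.length); omega)
      have h6 : VVf c Mf w.length ≤ (w.length + 2) ^ e * VVf c Mf w.length := Nat.le_mul_of_pos_left _ h3
      omega
  · intro w x
    refine lt_of_lt_of_le ?_ (le4 w.length e d _ _ rfl (hVd w.length))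
    have h1 := hVp w.length
    have h2 := hmod w.length x
    have h3 := hXp w.length
    have h6 : VVf c Mf w.length ≤ (w.length + 2) ^ e * VVf c Mf w.length := Nat.le_mul_of_pos_left _ h3
    unfold clA
    split_ifs with g1
    · have h5 : cl w (x / VVf c Mf w.length) * VVf c Mf w.length ≤
        (w.length + 2) ^ e * VVf c Mf w.length :=
          Nat.mul_le_mul_right _ (by have := bcl w (x / VVf c Mf w.length); omega)
      omega
    · have h5 : rs w (x / VVf c Mf w.length) 0 * VVf c Mf w.length ≤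
        (w.length + 2) ^ e * VVf c Mf w.length :=
          Nat.mul_le_mul_right _ (by have := brs w (x / VVf c Mf w.length) 0; omega)
      omega
  · intro w x r
    refine lt_of_lt_of_le ?_ (le4 w.length e d _ _ rfl (hVd w.length))
    have h1 := hVp w.length
    have h2 := hmod w.length r
    have h3 := hXp w.length
    have h6 : VVf c Mf w.length ≤ (w.length + 2) ^ e * VVf c Mf w.length := Nat.le_mul_of_pos_left _ h3
    unfold rsA
    split_ifs with g1
    · have h5 : rs w (x / VVf c Mf w.length) (r / VVf c Mf w.length) * VVf c Mf w.length ≤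
        (w.length + 2) ^ e * VVf c Mf w.length :=
          Nat.mul_le_mul_right _ (by have := brs w (x / VVf c Mf w.length) (r / VVf c Mf w.length); omega)
      omega
    · have h5 : ((w.length + 2) ^ e + min (r / VVf c Mf w.length) ((w.length + 2) ^ e)) * VVf c Mf w.length ≤
        ((w.length + 2) ^ e + (w.length + 2) ^ e) * VVf c Mf w.length :=
          Nat.mul_le_mul_right _ (Nat.add_le_add_left (min_le_right _ _) _)
      rw [add_mul ((w.length + 2) ^ e) ((w.length + 2) ^ e)] at h5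
      have h7 : addv (KK c w.length) (Mf w.length) (x % VVf c Mf w.length)
          (cmb (KK c w.length) (Mf w.length) (r % VVf c Mf w.length)) < VVf c Mf w.length := hVE.2.1 _ _ _ _
      omega
  · intro w
    refine lt_of_lt_of_le ?_ (le4 w.length e d _ _ rfl (hVd w.length))
    have h3 := hXp w.length
    have h1 := hVp w.length
    have h5 : c0 w * VVf c Mf w.length ≤ (w.length + 2) ^ e * VVf c Mf w.length :=
      Nat.mul_le_mul_right _ (bc0 w).le
    have h6 : VVf c Mf w.length ≤ (w.length + 2) ^ e * VVf c Mf w.length := Nat.le_mul_of_pos_left _ h3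
    omega

/-- The special case of a constant length. -/
theorem hAU (hL1 : StL1) (hL2 : StL2) (hL3 : StL3) (hL4 : StL4) (hL5 : StL5) (hVE : StVE) :
    Pool.Agent.Helper74.BS.StAU := by
  intro α _ cl lf tn rs c0 e c m i hcl hrs hlf htn hc0 bcl brs blf bc0
  exact hAU2 hL1 hL2 hL3 hL4 hL5 hVE cl lf tn rs c0 e c ((c + 2) * m) (fun _ => m) (fun _ => i) hcl hrs hlf htn hc0
    (E2.const m) (E2.const i) (by
      intro n
      have h0 : Nat.log 2 n ≤ n + 2 := (Nat.log_le_self 2 n).trans (by omega)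
      have h1 : Nat.log 2 n ^ c ≤ (n + 2) ^ c := Nat.pow_le_pow_left h0 c
      have h2 : 1 ≤ (n + 2) ^ c := Nat.one_le_pow _ _ (by omega)
      have h4 : 4 ≤ (n + 2) ^ 2 := by
        calc 4 = 2 ^ 2 := by norm_num
          _ ≤ (n + 2) ^ 2 := Nat.pow_le_pow_left (by omega) 2
      have h3 : KK c n + 1 ≤ (n + 2) ^ (c + 2) := by
        rw [pow_add]
        have : (n + 2) ^ c * 4 ≤ (n + 2) ^ c * (n + 2) ^ 2 := Nat.mul_le_mul_left _ h4
        unfold KK
        omega
      rw [pow_mul]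
      exact Nat.pow_le_pow_left h3 m) bcl brs blf bc0

end Pool.Agent.Helper10.BS
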